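import Pool.Agent.Lib.MP_21c4c4_lc.Defs
import Pool.Agent.Lib.MP_21c4c4_lc.Spec
import Pool.Agent.Lib.MP_21c4c4_lc.Ext
import Pool.Agent.Lib.MP_21c4c4_lc.Value
import Pool.Agent.Lib.MP_21c4c4_lc.Final

/-!
# MP_21c4c4_lc: the bits of integers given by straight-line programs

Positive answer to Q1: the decision problem BitSLP belongs to `PH^PP`, in fact to the second
existential level `Σ₂^{p,PP}`.  All definitions are in `Pool/Agent/Lib/MP_21c4c4_lc/Defs.lean`.
-/

open MP21c4c4

/-- BitSLP is in `Σ₂^{p,PP}`, hence in `PH^PP`. -/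
theorem Pool.Agent.Results.MP_21c4c4_lc.BitSLPinPHPP.result :
    BitSLP ∈ SigmaPP 2 ∧ BitSLP ∈ PHPP := by
  have hExact : SpecExact := specExact specBeta specSurj specSmooth specParam
  have hSum : SpecSum := specSum hExact specExt specPrimeW specParam
  have hApprox : SpecApprox := specApprox specGG specSurj specParam
  have hBit : SpecBit := specBit hSum hApprox specParam
  have hCode : SpecCode := specCode specValue
  have h : BitSLP ∈ SigmaPP 2 := specFinal hCode specBlk specCount hBit specCarry specValue
  exact ⟨h, 2, h⟩
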